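import Pool.Agent.NA.Stmts

set_option autoImplicit false

open Finset Filter Topology

noncomputable section

namespace Pool.Agent.NA.H1

open Pool.Agent.NA

theorem brn : BrnStmt := by
  intro X _ _ δ V u b hδ hb hK
  -- the error of a step
  have tri : ∀ k, ‖u (k + 1) - u k‖ ≤
      ‖V (k + 1) - V k‖ + ‖(V (k + 1) - u (k + 1)) - (V k - u k)‖ := by
    intro k
    have e : u (k + 1) - u k =
        (V (k + 1) - V k) - ((V (k + 1) - u (k + 1)) - (V k - u k)) := by abel
    rw [e]
    exact norm_sub_le _ _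
  have tri2 : ∀ k, ‖V (k + 1) - u (k + 1)‖ ≤
      ‖V k - u k‖ + ‖(V (k + 1) - u (k + 1)) - (V k - u k)‖ := by
    intro k
    have e : V (k + 1) - u (k + 1) =
        (V k - u k) + ((V (k + 1) - u (k + 1)) - (V k - u k)) := by abel
    calc ‖V (k + 1) - u (k + 1)‖
        = ‖(V k - u k) + ((V (k + 1) - u (k + 1)) - (V k - u k))‖ := by rw [← e]
      _ ≤ _ := norm_add_le _ _
  refine ⟨?_, ?_⟩
  · rintro ⟨v, hv⟩
    have h1 : Tendsto (fun k => ‖V (k + 1) - V k‖) atTop (𝓝 0) := by
      have h2 : Tendsto (fun k => V (k + 1) - V k) atTop (𝓝 (v - v)) :=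
        ((tendsto_add_atTop_iff_nat 1).2 hv).sub hv
      have h3 := h2.norm
      simpa using h3
    obtain ⟨k0, hk0⟩ := (h1.eventually (gt_mem_nhds (show (0 : ℝ) < δ / 2 by positivity))).exists_forall_of_atTop
    have hsec : ∀ k, k0 ≤ k → b (k + 1) = b k ∧
        ‖(V (k + 1) - u (k + 1)) - (V k - u k)‖ ≤ δ / 2 ^ (k + 7) ∧
        δ / 2 ^ (b k + 4) ≤ ‖u (k + 1) - u k‖ := by
      intro k hk
      rcases hK k with ⟨-, h4, h5⟩ | h
      · exfalso
        have h6 := tri k
        have h7 := hk0 k hk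
        have h8 : δ / 2 ^ (b k + 4) ≤ δ / 2 ^ 4 := by
          refine div_le_div_of_nonneg_left hδ.le (by positivity) ?_
          exact pow_le_pow_right₀ (by norm_num) (by omega)
        have h9 : δ / 2 ^ 4 = δ / 16 := by norm_num
        linarith
      · exact h
    have hbc : ∀ j, b (k0 + j) = b k0 := by
      intro j
      induction j with
      | zero => rfl
      | succ j ih =>
        have := (hsec (k0 + j) (by omega)).1
        rw [show k0 + (j + 1) = k0 + j + 1 by ring, this, ih]
    have hpos : 0 < δ / 2 ^ (b k0 + 5) := by positivity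
    obtain ⟨k1, hk1⟩ := (h1.eventually (gt_mem_nhds hpos)).exists_forall_of_atTop
    have hk : k0 ≤ k0 + (k1 + b k0) := by omega
    obtain ⟨-, g1, g2⟩ := hsec _ hk
    rw [hbc] at g2
    have g3 := hk1 (k0 + (k1 + b k0)) (by omega)
    have g4 := tri (k0 + (k1 + b k0))
    have g5 : δ / 2 ^ (k0 + (k1 + b k0) + 7) ≤ δ / 2 ^ (b k0 + 5) := by
      refine div_le_div_of_nonneg_left hδ.le (by positivity) ?_
      exact pow_le_pow_right₀ (by norm_num) (by omega)
    have g6 : δ / 2 ^ (b k0 + 4) = 2 * (δ / 2 ^ (b k0 + 5)) := by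
      rw [show b k0 + 5 = (b k0 + 4) + 1 by ring, pow_succ (2 : ℝ) (b k0 + 4)]
      field_simp
    linarith
  · intro k
    have key : ‖V k - u k‖ ≤ ‖V 0 - u 0‖ + δ / 8 * (1 - 1 / 2 ^ (b k)) +
        δ / 64 * (1 - 1 / 2 ^ k) := by
      induction k with
      | zero => simp [hb]
      | succ k ih =>
        have h0 := tri2 k
        rcases hK k with ⟨h3, h4, -⟩ | ⟨h3, h4, -⟩
        · rw [h3]
          have e1 : δ / 2 ^ (b k + 4) = δ / 8 * (1 / 2 ^ b k) - δ / 8 * (1 / 2 ^ (b k + 1)) := by
            rw [pow_add, pow_succ]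
            field_simp
            ring
          have e2 : (1 : ℝ) / 2 ^ (k + 1) ≤ 1 / 2 ^ k := by
            refine div_le_div_of_nonneg_left zero_le_one (by positivity) ?_
            exact pow_le_pow_right₀ (by norm_num) (by omega)
          have e3 : δ / 64 * (1 / 2 ^ (k + 1)) ≤ δ / 64 * (1 / 2 ^ k) :=
            mul_le_mul_of_nonneg_left e2 (by positivity)
          linarith
        · rw [h3]
          have e1 : δ / 2 ^ (k + 7) = δ / 64 * (1 / 2 ^ k) - δ / 64 * (1 / 2 ^ (k + 1)) := by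
            rw [pow_add, pow_succ]
            field_simp
            ring
          linarith
    have e1 : 0 ≤ δ / 8 * (1 / 2 ^ b k) := by positivity
    have e2 : 0 ≤ δ / 64 * (1 / 2 ^ k) := by positivity
    linarith

end Pool.Agent.NA.H1
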