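import Pool.Agent.NA.Stmts

set_option autoImplicit false

open Finset Filter Topology

noncomputable section

namespace Pool.Agent.NA.H1

open Pool.Agent.NA

theorem gen_sum {V : Type} [AddCommMonoid V] (f : ℕ → V) (c a : ℕ) (hc : 0 < c) :
    ∑ m ∈ range (a * c), f (m % c) = a • ∑ m ∈ range c, f m := by
  induction a with
  | zero => simp
  | succ a ih =>
    rw [Nat.succ_mul, Finset.sum_range_add, ih, succ_nsmul]
    refine congrArg _ (Finset.sum_congr rfl fun m hm => ?_)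
    rw [mem_range] at hm
    rw [Nat.mul_comm a c, Nat.mul_add_mod, Nat.mod_eq_of_lt hm]

theorem gen (hG : GepStmt) : GenStmt := by
  intro X _ _ r hr hr1 hR NN δ hN εf ρ η z K L V u bt hu hL hε hρ hη hη1
  obtain ⟨z', K', kk, V', u', bt', h1, h2, h3, h4⟩ :=
    hG X r hr hr1 hR NN δ hN εf ρ η z K L V u bt hu hL hε hρ hη hη1
  set k : ℕ := (range L).sup kk with hk
  have hkk : ∀ i < L, kk i ≤ k := fun i hi => Finset.le_sup (f := kk) (mem_range.2 hi)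
  have hk1 : 1 ≤ k := (h4 0 (by omega)).1.trans (hkk 0 (by omega))
  have hd : ∀ i m, m < 2 ^ k → (i * 2 ^ k + m) / 2 ^ k = i ∧ (i * 2 ^ k + m) % 2 ^ k = m := by
    intro i m hm
    have hp : 0 < 2 ^ k := by positivity
    constructor
    · rw [Nat.mul_comm i, Nat.mul_add_div hp, Nat.div_eq_of_lt hm, Nat.add_zero]
    · rw [Nat.mul_comm i, Nat.mul_add_mod, Nat.mod_eq_of_lt hm]
  refine ⟨z', K', k, fun n => V' (n / 2 ^ k) (n % 2 ^ k % 2 ^ kk (n / 2 ^ k)),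
    fun n => u' (n / 2 ^ k) (n % 2 ^ k % 2 ^ kk (n / 2 ^ k)), fun n => bt' (n / 2 ^ k),
    h1, h2, h3, hk1, ?_⟩
  intro i hi
  obtain ⟨g1, g2, g3⟩ := h4 i hi
  refine ⟨?_, ?_⟩
  · have e1 : ∑ m ∈ range (2 ^ k), V' ((i * 2 ^ k + m) / 2 ^ k)
        ((i * 2 ^ k + m) % 2 ^ k % 2 ^ kk ((i * 2 ^ k + m) / 2 ^ k)) =
        ∑ m ∈ range (2 ^ k), V' i (m % 2 ^ kk i) := by
      refine Finset.sum_congr rfl fun m hm => ?_
      rw [mem_range] at hm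
      rw [(hd i m hm).1, (hd i m hm).2]
    rw [e1]
    have e2 : 2 ^ k = 2 ^ (k - kk i) * 2 ^ kk i := by
      rw [← pow_add, Nat.sub_add_cancel (hkk i hi)]
    have e3 : ∑ m ∈ range (2 ^ k), V' i (m % 2 ^ kk i) =
        ∑ m ∈ range (2 ^ (k - kk i) * 2 ^ kk i), V' i (m % 2 ^ kk i) := by rw [← e2]
    rw [e3, gen_sum (fun m => V' i m) (2 ^ kk i) (2 ^ (k - kk i)) (by positivity), g2,
      ← Nat.cast_smul_eq_nsmul ℝ, smul_smul]
    congr 1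
    push_cast
    rw [← pow_add, Nat.sub_add_cancel (hkk i hi)]
  · intro m hm
    have hm' : m % 2 ^ kk i < 2 ^ kk i := Nat.mod_lt _ (by positivity)
    have g4 := g3 (m % 2 ^ kk i) hm'
    show u' ((i * 2 ^ k + m) / 2 ^ k)
        ((i * 2 ^ k + m) % 2 ^ k % 2 ^ kk ((i * 2 ^ k + m) / 2 ^ k)) ∈ NN ∧
      V' ((i * 2 ^ k + m) / 2 ^ k)
        ((i * 2 ^ k + m) % 2 ^ k % 2 ^ kk ((i * 2 ^ k + m) / 2 ^ k)) - V i ∈ sp z' K' ∧
      Kin δ (εf (bt i)) ρ (V i) (u i) (bt i)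
        (V' ((i * 2 ^ k + m) / 2 ^ k)
          ((i * 2 ^ k + m) % 2 ^ k % 2 ^ kk ((i * 2 ^ k + m) / 2 ^ k)))
        (u' ((i * 2 ^ k + m) / 2 ^ k)
          ((i * 2 ^ k + m) % 2 ^ k % 2 ^ kk ((i * 2 ^ k + m) / 2 ^ k)))
        (bt' ((i * 2 ^ k + m) / 2 ^ k))
    rw [(hd i m hm).1, (hd i m hm).2]
    exact g4

end Pool.Agent.NA.H1
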